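import Mathlib

/-!
# Project FULL: Alexander–Whitney and shuffle maps on lists
-/

set_option autoImplicit false

namespace Pool.Agent.H88.FU

variable {V W F : Type*} [CommRing F]

/-- coboundary of a function of lists -/
def D (C : List V → F) (l : List V) : F :=
  ∑ i ∈ Finset.range l.length, (-1) ^ i * C (l.eraseIdx i)

theorem D_nil (C : List V → F) : D C [] = 0 := by simp [D]

theorem D_cons (C : List V → F) (x : V) (l : List V) :
    D C (x :: l) = C l - D (fun l' => C (x :: l')) l := by
  unfold D
  rw [List.length_cons, Finset.sum_range_succ']
  simp only [List.eraseIdx_cons_succ, List.eraseIdx_cons_zero, pow_zero, one_mul, pow_succ]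
  rw [sub_eq_add_neg, add_comm, ← Finset.sum_neg_distrib]
  congr 1
  exact Finset.sum_congr rfl fun i _ => by ring

theorem D_congr {C C' : List V → F} {l : List V}
    (h : ∀ l', l'.length + 1 = l.length → (∀ x ∈ l', x ∈ l) → C l' = C' l') : D C l = D C' l := by
  unfold D
  refine Finset.sum_congr rfl fun i hi => ?_
  rw [Finset.mem_range] at hi
  rw [h (l.eraseIdx i) (by rw [List.length_eraseIdx_of_lt hi]; omega)
    fun x hx => List.mem_of_mem_eraseIdx hx]

theorem D_add (C C' : List V → F) (l : List V) : D (fun l => C l + C' l) l = D C l + D C' l := by
  unfold D
  rw [← Finset.sum_add_distrib]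
  exact Finset.sum_congr rfl fun i _ => by ring

theorem D_smul (a : F) (C : List V → F) (l : List V) : D (fun l => a * C l) l = a * D C l := by
  unfold D
  rw [Finset.mul_sum]
  exact Finset.sum_congr rfl fun i _ => by ring

/-- sum over the shuffles of `x :: P` and `y :: Q` -/
def ez' : (List (V × W) → F) → V → List V → W → List W → F
  | C, x, [], y, [] => C [(x, y)]
  | C, x, x' :: P, y, [] => ez' (fun l => C ((x, y) :: l)) x' P y []
  | C, x, [], y, y' :: Q => ez' (fun l => C ((x, y) :: l)) x [] y' Q
  | C, x, x' :: P, y, y' :: Q => ez' (fun l => C ((x, y) :: l)) x' P y (y' :: Q) +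
      (-1) ^ (P.length + 1) * ez' (fun l => C ((x, y) :: l)) x (x' :: P) y' Q
termination_by _ _ P _ Q => P.length + Q.length

/-- sum over the shuffles of `p` and `q`, zero if one of them is empty -/
def ez (C : List (V × W) → F) : List V → List W → F
  | [], _ => 0
  | _ :: _, [] => 0
  | x :: P, y :: Q => ez' C x P y Q

theorem ez_nil_left (C : List (V × W) → F) (q : List W) : ez C [] q = 0 := rfl

theorem ez_nil_right (C : List (V × W) → F) (p : List V) : ez C p [] = 0 := by
  cases p <;> rfl

theorem ez_one (C : List (V × W) → F) (x : V) (y : W) : ez C [x] [y] = C [(x, y)] := by
  simp [ez, ez']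

theorem ez_left (C : List (V × W) → F) (x : V) (p : List V) (hp : p ≠ []) (y : W) :
    ez C (x :: p) [y] = ez (fun l => C ((x, y) :: l)) p [y] := by
  cases p with
  | nil => exact absurd rfl hp
  | cons x' P => simp [ez, ez']

theorem ez_right (C : List (V × W) → F) (x : V) (y : W) (q : List W) (hq : q ≠ []) :
    ez C [x] (y :: q) = ez (fun l => C ((x, y) :: l)) [x] q := by
  cases q with
  | nil => exact absurd rfl hq
  | cons y' Q => simp [ez, ez']

theorem ez_cons (C : List (V × W) → F) (x : V) (p : List V) (hp : p ≠ []) (y : W) (q : List W)
    (hq : q ≠ []) : ez C (x :: p) (y :: q) = ez (fun l => C ((x, y) :: l)) p (y :: q) +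
      (-1) ^ p.length * ez (fun l => C ((x, y) :: l)) (x :: p) q := by
  cases p with
  | nil => exact absurd rfl hp
  | cons x' P =>
    cases q with
    | nil => exact absurd rfl hq
    | cons y' Q => simp [ez, ez']

/-- linearity -/
theorem ez_sub (p : List V) : ∀ (q : List W) (C C' : List (V × W) → F),
    ez (fun l => C l - C' l) p q = ez C p q - ez C' p q := by
  induction p with
  | nil => intro q C C'; simp [ez]
  | cons x p ihp =>
    intro q
    induction q with
    | nil => intro C C'; simp [ez]
    | cons y q ihq =>
      intro C C'
      by_cases hp : p = []
      · subst hp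
        by_cases hq : q = []
        · subst hq
          simp only [ez_one]
        · simp only [ez_right _ x y q hq]
          exact ihq _ _
      · by_cases hq : q = []
        · subst hq
          simp only [ez_left _ x p hp y]
          exact ihp _ _ _
        · simp only [ez_cons _ x p hp y q hq]
          rw [ihp, ihq]
          ring

/-- the coboundary of the sum over shuffles -/
theorem ez_D (p : List V) (hp : p ≠ []) : ∀ (q : List W), q ≠ [] → ∀ C : List (V × W) → F,
    ez (D C) p q = D (fun p' => ez C p' q) p + (-1) ^ (p.length + 1) * D (fun q' => ez C p q') q +
      (if p.length = 1 ∧ q.length = 1 then C [] else 0) := by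
  induction p with
  | nil => exact absurd rfl hp
  | cons x p ihp =>
    intro q
    induction q with
    | nil => exact fun hq => absurd rfl hq
    | cons y q ihq =>
      intro _ C
      set z : V × W := (x, y) with hz
      have hD : (fun l => D C (z :: l)) = fun l => C l - D (fun l' => C (z :: l')) l := by
        funext l
        exact D_cons C z l
      by_cases hp : p = []
      · subst hp
        by_cases hq : q = []
        · subst hq
          rw [ez_one, D_cons, D_nil, D_cons, D_nil, D_cons, D_nil, ez_nil_left, ez_nil_right]
          simp
        · rw [ez_right _ x y q hq, ← hz, hD, ez_sub, ihq hq, D_cons, D_nil, ez_nil_left]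
          rw [D_cons (fun q' => ez C [x] q') y q]
          have h1 : D (fun l' => ez C [x] (y :: l')) q =
              D (fun q' => ez (fun l => C (z :: l)) [x] q') q +
                (if q.length = 1 then C [z] else 0) := by
            have h2 : ∀ l' : List W, ez C [x] (y :: l') =
                ez (fun l => C (z :: l)) [x] l' + (if l' = [] then C [z] else 0) := by
              intro l'
              by_cases hl : l' = []
              · subst hl
                rw [ez_one, ez_nil_right, if_pos rfl, zero_add]
              · rw [ez_right _ x y l' hl, if_neg hl, add_zero]
            simp only [h2]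
            rw [D_add]
            congr 1
            cases q with
            | nil => exact absurd rfl hq
            | cons y' Q =>
              rw [D_cons]
              have h3 : D (fun l' : List W => if y' :: l' = [] then C [z] else 0) Q = 0 := by
                unfold D
                simp
              rw [h3, sub_zero]
              cases Q <;> simp
          rw [h1]
          have h4 : ¬ (([x] : List V).length = 1 ∧ (y :: q).length = 1) := by
            cases q with
            | nil => exact absurd rfl hq
            | cons => simp
          have h5 : (([x] : List V).length = 1 ∧ q.length = 1) ↔ q.length = 1 := by simp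
          rw [if_neg h4]
          simp only [h5]
          rw [D_cons, D_nil, ez_nil_left]
          simp only [List.length_singleton]
          ring
      · have hpl : p.length ≠ 0 := fun h => hp (List.length_eq_zero_iff.1 h)
        have hneg : ¬ ((x :: p).length = 1 ∧ (y :: q).length = 1) := fun h => by
          rw [List.length_cons] at h
          omega
        by_cases hq : q = []
        · subst hq
          rw [ez_left _ x p hp y, ← hz, hD, ez_sub, ihp hp [y] (by simp), if_neg hneg]
          rw [D_cons (fun p' => ez C p' [y]) x p]
          rw [D_cons (fun q' => ez C (x :: p) q'), D_nil, ez_nil_right]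
          rw [D_cons (fun q' => ez (fun l => C (z :: l)) p q'), D_nil, ez_nil_right]
          have h1 : D (fun l' => ez C (x :: l') [y]) p =
              D (fun p' => ez (fun l => C (z :: l)) p' [y]) p +
                (if p.length = 1 then C [z] else 0) := by
            have h2 : ∀ l' : List V, ez C (x :: l') [y] =
                ez (fun l => C (z :: l)) l' [y] + (if l' = [] then C [z] else 0) := by
              intro l'
              by_cases hl : l' = []
              · subst hl
                rw [ez_one, ez_nil_left, if_pos rfl, zero_add]
              · rw [ez_left _ x l' hl y, if_neg hl, add_zero]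
            simp only [h2]
            rw [D_add]
            congr 1
            cases p with
            | nil => exact absurd rfl hp
            | cons x' P =>
              rw [D_cons]
              have h3 : D (fun l' : List V => if x' :: l' = [] then C [z] else 0) P = 0 := by
                unfold D
                simp
              rw [h3, sub_zero]
              cases P <;> simp
          rw [h1]
          have h5 : (p.length = 1 ∧ ([y] : List W).length = 1) ↔ p.length = 1 := by simp
          simp only [h5]
          ring
        · have hql : q.length ≠ 0 := fun h => hq (List.length_eq_zero_iff.1 h)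
          rw [ez_cons _ x p hp y q hq, ← hz, hD, ez_sub, ez_sub, ihp hp (y :: q) (by simp),
            ihq hq, if_neg hneg, if_neg (fun h => by rw [List.length_cons] at h; omega),
            if_neg (fun h => by rw [List.length_cons] at h; omega)]
          rw [D_cons (fun p' => ez C p' (y :: q)) x p, D_cons (fun q' => ez C (x :: p) q') y q,
            D_cons (fun p' => ez (fun l => C (z :: l)) p' q) x p,
            D_cons (fun q' => ez (fun l => C (z :: l)) p q') y q]
          have h1 : D (fun l' => ez C (x :: l') (y :: q)) p =
              D (fun p' => ez (fun l => C (z :: l)) p' (y :: q)) p +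
                (-1) ^ (p.length + 1) * D (fun l' => ez (fun l => C (z :: l)) (x :: l') q) p := by
            have h2 : ∀ l' : List V, ez C (x :: l') (y :: q) =
                ez (fun l => C (z :: l)) l' (y :: q) +
                  (-1) ^ l'.length * ez (fun l => C (z :: l)) (x :: l') q := by
              intro l'
              by_cases hl : l' = []
              · subst hl
                rw [ez_right _ x y q hq, ez_nil_left, List.length_nil, pow_zero, one_mul, zero_add]
              · rw [ez_cons _ x l' hl y q hq]
            simp only [h2]
            rw [D_add, ← D_smul]
            congr 1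
            refine D_congr fun l' hl' _ => ?_
            rw [← hl', pow_add, pow_add]
            ring
          have h3 : D (fun l' => ez C (x :: p) (y :: l')) q =
              D (fun l' => ez (fun l => C (z :: l)) p (y :: l')) q +
                (-1) ^ p.length * D (fun q' => ez (fun l => C (z :: l)) (x :: p) q') q := by
            have h2 : ∀ l' : List W, ez C (x :: p) (y :: l') =
                ez (fun l => C (z :: l)) p (y :: l') +
                  (-1) ^ p.length * ez (fun l => C (z :: l)) (x :: p) l' := by
              intro l'
              by_cases hl : l' = []
              · subst hl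
                rw [ez_left _ x p hp y, ez_nil_right, mul_zero, add_zero]
              · rw [ez_cons _ x p hp y l' hl]
            simp only [h2]
            rw [D_add, ← D_smul]
          rw [h1, h3, List.length_cons]
          have h6 : ((-1 : F) ^ p.length) * ((-1) ^ p.length) = 1 := by
            rw [← mul_pow]
            simp
          simp only [pow_succ]
          ring

/-- Alexander–Whitney sum -/
def aw (E : List V → List V → F) (l : List V) : F :=
  ∑ a ∈ Finset.range l.length, E (l.take (a + 1)) (l.drop a)

theorem aw_nil (E : List V → List V → F) : aw E [] = 0 := by simp [aw]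

theorem aw_cons (E : List V → List V → F) (v : V) (l : List V) :
    aw E (v :: l) = E [v] (v :: l) + aw (fun p q => E (v :: p) q) l := by
  unfold aw
  rw [List.length_cons, Finset.sum_range_succ']
  simp only [List.take_succ_cons, List.drop_succ_cons, List.drop_zero, List.take_zero]
  rw [add_comm]

theorem aw_congr {E E' : List V → List V → F} {l : List V}
    (h : ∀ a < l.length, E (l.take (a + 1)) (l.drop a) = E' (l.take (a + 1)) (l.drop a)) :
    aw E l = aw E' l := by
  unfold aw
  exact Finset.sum_congr rfl fun a ha => h a (Finset.mem_range.1 ha)

theorem aw_add (E E' : List V → List V → F) (l : List V) :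
    aw (fun p q => E p q + E' p q) l = aw E l + aw E' l := by
  unfold aw
  rw [← Finset.sum_add_distrib]

theorem aw_sub (E E' : List V → List V → F) (l : List V) :
    aw (fun p q => E p q - E' p q) l = aw E l - aw E' l := by
  unfold aw
  rw [← Finset.sum_sub_distrib]

/-- total coboundary -/
def D2 (E : List V → List V → F) (p q : List V) : F :=
  D (fun p' => E p' q) p + (-1) ^ (p.length + 1) * D (fun q' => E p q') q

/-- the Alexander–Whitney map commutes with the coboundaries -/
theorem aw_D (l : List V) : ∀ E : List V → List V → F, (∀ p, E p [] = 0) → l ≠ [] →
    aw (D2 E) l = D (aw E) l + E [] l := by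
  induction l with
  | nil => exact fun _ _ h => absurd rfl h
  | cons v l ih =>
    intro E hE _
    by_cases hl : l = []
    · subst hl
      rw [aw_cons, aw_nil, add_zero, D_cons, aw_nil, D_nil, sub_zero, zero_add]
      unfold D2
      rw [D_cons, D_nil, D_cons, D_nil, hE]
      ring
    · set Ev : List V → List V → F := fun p q => E (v :: p) q with hEv
      have h1 : D2 E [v] (v :: l) = E [] (v :: l) + E [v] l - D (fun s => E [v] (v :: s)) l := by
        unfold D2
        rw [D_cons, D_nil, D_cons (fun q' => E [v] q')]
        simp only [List.length_singleton]
        ring
      have h2 : aw (fun p q => D2 E (v :: p) q) l = aw E l - aw (D2 Ev) l := by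
        rw [← aw_sub]
        refine aw_congr fun a _ => ?_
        unfold D2
        rw [D_cons, List.length_cons]
        simp only [hEv, pow_succ]
        ring
      rw [aw_cons, h1, h2, ih Ev (fun p => hE _) hl, D_cons]
      have h3 : (fun l' => aw E (v :: l')) = fun l' => E [v] (v :: l') + aw Ev l' := by
        funext l'
        exact aw_cons E v l'
      rw [h3, D_add]
      simp only [hEv]
      ring

/-- subdivision of a function of lists -/
def sd (C : List (V × V) → F) (l : List V) : F := aw (ez C) l

/-- **The subdivision commutes with the coboundary.** -/
theorem sd_D (C : List (V × V) → F) (l : List V) (hl : 2 ≤ l.length) :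
    sd (D C) l = D (sd C) l := by
  unfold sd
  have hne : l ≠ [] := by
    rintro rfl
    simp at hl
  have h1 : aw (ez (D C)) l = aw (D2 (ez C)) l := by
    refine aw_congr fun a ha => ?_
    have h2 : l.take (a + 1) ≠ [] := by
      rw [Ne, List.take_eq_nil_iff]
      rintro (h | h)
      · omega
      · exact hne h
    have h3 : l.drop a ≠ [] := by
      rw [Ne, List.drop_eq_nil_iff]
      omega
    rw [ez_D _ h2 _ h3, if_neg, add_zero]
    · rfl
    · rintro ⟨h4, h5⟩
      rw [List.length_take] at h4
      rw [List.length_drop] at h5
      omega
  rw [h1, aw_D l _ (fun p => ez_nil_right C p) hne, ez_nil_left, add_zero]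

end Pool.Agent.H88.FU
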