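import Pool.Agent.H88.FU.SdL

/-!
# Project FULL: the lists which occur in the subdivision
-/

set_option autoImplicit false

namespace Pool.Agent.H88.FU

variable {V W F : Type*} [CommRing F]

theorem ez_zero (p : List V) : ∀ (q : List W), ez (fun _ : List (V × W) => (0 : F)) p q = 0 := by
  induction p with
  | nil => intro q; rfl
  | cons x p ihp =>
    intro q
    induction q with
    | nil => rfl
    | cons y q ihq =>
      by_cases hp : p = []
      · subst hp
        by_cases hq : q = []
        · subst hq
          rw [ez_one]
        · rw [ez_right _ x y q hq]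
          exact ihq
      · by_cases hq : q = []
        · subst hq
          rw [ez_left _ x p hp y]
          exact ihp _
        · rw [ez_cons _ x p hp y q hq, ihp, ihq]
          ring

/-- a function which vanishes on the lists starting with `x` -/
theorem ez_head {C : List (V × W) → F} {x : V} (h : ∀ y l, C ((x, y) :: l) = 0) (p : List V)
    (q : List W) : ez C (x :: p) q = 0 := by
  cases q with
  | nil => rfl
  | cons y q =>
    have h1 : (fun l => C ((x, y) :: l)) = fun _ => (0 : F) := funext fun l => h y l
    by_cases hp : p = []
    · subst hp
      by_cases hq : q = []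
      · subst hq
        rw [ez_one]
        exact h y []
      · rw [ez_right _ x y q hq, h1, ez_zero]
    · by_cases hq : q = []
      · subst hq
        rw [ez_left _ x p hp y, h1, ez_zero]
      · rw [ez_cons _ x p hp y q hq, h1, ez_zero, ez_zero]
        ring

/-- only the first coordinates count: no step in the second direction -/
theorem ez_fst {G : List V → F} (hG : ∀ (a b : List V) (x : V), G (a ++ x :: x :: b) = 0)
    (p : List V) (hp : p ≠ []) : ∀ (q : List W), q ≠ [] → ∀ pre : List V,
    ez (fun l => G (pre ++ l.map Prod.fst)) p q = if q.length = 1 then G (pre ++ p) else 0 := by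
  induction p with
  | nil => exact absurd rfl hp
  | cons x p ihp =>
    intro q
    induction q with
    | nil => exact fun hq => absurd rfl hq
    | cons y q ihq =>
      intro _ pre
      have hcons : (fun l : List (V × W) => G (pre ++ ((x, y) :: l).map Prod.fst)) =
          fun l => G ((pre ++ [x]) ++ l.map Prod.fst) := by
        funext l
        simp
      have hz : ∀ (y' : W) (l : List (V × W)),
          (fun l : List (V × W) => G ((pre ++ [x]) ++ l.map Prod.fst)) ((x, y') :: l) = 0 := by
        intro y' l
        have := hG pre (l.map Prod.fst) x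
        simpa using this
      by_cases hp : p = []
      · subst hp
        by_cases hq : q = []
        · subst hq
          rw [ez_one]
          simp
        · rw [ez_right _ x y q hq, hcons, ez_head hz, if_neg]
          rw [List.length_cons]
          have : q.length ≠ 0 := fun h => hq (List.length_eq_zero_iff.1 h)
          omega
      · by_cases hq : q = []
        · subst hq
          rw [ez_left _ x p hp y, hcons, ihp hp [y] (by simp)]
          simp
        · have h1 : (y :: q).length ≠ 1 := by
            rw [List.length_cons]
            have : q.length ≠ 0 := fun h => hq (List.length_eq_zero_iff.1 h)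
            omega
          rw [ez_cons _ x p hp y q hq, hcons, ez_head hz, ihp hp (y :: q) (by simp), if_neg h1,
            if_neg h1]
          ring

/-- the subdivision of a function of the first coordinates -/
theorem sd_fst {G : List V → F} (hG : ∀ (a b : List V) (x : V), G (a ++ x :: x :: b) = 0)
    (l : List V) (hl : l ≠ []) : sd (fun l' : List (V × V) => G (l'.map Prod.fst)) l = G l := by
  unfold sd aw
  have h0 : 0 < l.length := List.length_pos_iff.2 hl
  have h1 : ∀ a ∈ Finset.range l.length,
      ez (fun l' : List (V × V) => G (l'.map Prod.fst)) (l.take (a + 1)) (l.drop a) =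
        if a = l.length - 1 then G l else 0 := by
    intro a ha
    rw [Finset.mem_range] at ha
    have h2 : l.take (a + 1) ≠ [] := by
      rw [Ne, List.take_eq_nil_iff]
      rintro (h | h)
      · omega
      · exact hl h
    have h3 : l.drop a ≠ [] := by
      rw [Ne, List.drop_eq_nil_iff]
      omega
    have h4 := ez_fst (W := V) hG (l.take (a + 1)) h2 (l.drop a) h3 []
    simp only [List.nil_append] at h4
    rw [h4, List.length_drop]
    by_cases h5 : a = l.length - 1
    · rw [if_pos (by omega), if_pos h5, List.take_of_length_le (by omega)]
    · rw [if_neg (by omega), if_neg h5]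
  rw [Finset.sum_congr rfl h1, Finset.sum_ite_eq', if_pos (Finset.mem_range.2 (by omega))]

section order

variable [PartialOrder V] [PartialOrder W]

/-- the lists of pairs which occur -/
structure Pth (p : List V) (q : List W) (l : List (V × W)) : Prop where
  len : l.length + 1 = p.length + q.length
  mem : ∀ z ∈ l, z.1 ∈ p ∧ z.2 ∈ q
  inc : l.Pairwise (· < ·)

theorem ez_congr (p : List V) : ∀ (q : List W), p.Pairwise (· < ·) → q.Pairwise (· < ·) →
    ∀ C C' : List (V × W) → F, (∀ l, Pth p q l → C l = C' l) → ez C p q = ez C' p q := by
  induction p with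
  | nil => intro q _ _ C C' _; rfl
  | cons x p ihp =>
    intro q
    induction q with
    | nil => intro _ _ C C' _; rfl
    | cons y q ihq =>
      intro hxp hyq C C' h
      rw [List.pairwise_cons] at hxp hyq
      have hx : ∀ x' ∈ x :: p, x ≤ x' := by
        intro x' hx'
        rcases List.mem_cons.1 hx' with rfl | hx'
        · exact le_rfl
        · exact (hxp.1 x' hx').le
      have hy : ∀ y' ∈ y :: q, y ≤ y' := by
        intro y' hy'
        rcases List.mem_cons.1 hy' with rfl | hy'
        · exact le_rfl
        · exact (hyq.1 y' hy').le
      have hL : ∀ l, Pth p (y :: q) l → C ((x, y) :: l) = C' ((x, y) :: l) := by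
        intro l hl
        refine h _ ⟨?_, ?_, ?_⟩
        · have := hl.len
          simp only [List.length_cons] at this ⊢
          omega
        · intro z hz
          rcases List.mem_cons.1 hz with rfl | hz
          · exact ⟨List.mem_cons_self, List.mem_cons_self⟩
          · exact ⟨List.mem_cons_of_mem _ (hl.mem z hz).1, (hl.mem z hz).2⟩
        · rw [List.pairwise_cons]
          refine ⟨fun z hz => ?_, hl.inc⟩
          obtain ⟨h1, h2⟩ := hl.mem z hz
          exact Prod.lt_iff.2 (Or.inl ⟨hxp.1 _ h1, hy _ h2⟩)
      have hR : ∀ l, Pth (x :: p) q l → C ((x, y) :: l) = C' ((x, y) :: l) := by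
        intro l hl
        refine h _ ⟨?_, ?_, ?_⟩
        · have := hl.len
          simp only [List.length_cons] at this ⊢
          omega
        · intro z hz
          rcases List.mem_cons.1 hz with rfl | hz
          · exact ⟨List.mem_cons_self, List.mem_cons_self⟩
          · exact ⟨(hl.mem z hz).1, List.mem_cons_of_mem _ (hl.mem z hz).2⟩
        · rw [List.pairwise_cons]
          refine ⟨fun z hz => ?_, hl.inc⟩
          obtain ⟨h1, h2⟩ := hl.mem z hz
          exact Prod.lt_iff.2 (Or.inr ⟨hx _ h1, hyq.1 _ h2⟩)
      by_cases hp : p = []
      · subst hp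
        by_cases hq : q = []
        · subst hq
          rw [ez_one, ez_one]
          refine h _ ⟨rfl, ?_, by simp⟩
          intro z hz
          rw [List.mem_singleton] at hz
          subst hz
          simp
        · rw [ez_right _ x y q hq, ez_right _ x y q hq]
          exact ihq (by simp) hyq.2 _ _ hR
      · by_cases hq : q = []
        · subst hq
          rw [ez_left _ x p hp y, ez_left _ x p hp y]
          exact ihp _ hxp.2 (by simp) _ _ hL
        · rw [ez_cons _ x p hp y q hq, ez_cons _ x p hp y q hq,
            ihp _ hxp.2 (List.pairwise_cons.2 hyq) _ _ hL,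
            ihq (List.pairwise_cons.2 hxp) hyq.2 _ _ hR]

/-- the lists of pairs which occur in the subdivision of `l` -/
structure SPth (l : List V) (l' : List (V × V)) : Prop where
  len : l'.length = l.length
  mem : ∀ z ∈ l', z.1 ∈ l ∧ z.2 ∈ l
  mid : ∃ v ∈ l, ∀ z ∈ l', z.1 ≤ v ∧ v ≤ z.2
  inc : l'.Pairwise (· < ·)

theorem sd_congr {l : List V} (hl : l.Pairwise (· < ·)) {C C' : List (V × V) → F}
    (h : ∀ l', SPth l l' → C l' = C' l') : sd C l = sd C' l := by
  unfold sd
  refine aw_congr fun a ha => ?_
  refine ez_congr _ _ (hl.sublist (List.take_sublist _ _)) (hl.sublist (List.drop_sublist _ _))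
    _ _ fun l' hl' => h l' ?_
  have h1 : l.take (a + 1) = l.take a ++ [l[a]] := by
    rw [List.take_add_one, List.getElem?_eq_getElem ha]
    rfl
  have h2 : l.drop a = l[a] :: l.drop (a + 1) := List.drop_eq_getElem_cons ha
  refine ⟨?_, fun z hz => ⟨List.mem_of_mem_take (hl'.mem z hz).1,
    List.mem_of_mem_drop (hl'.mem z hz).2⟩, ⟨l[a], List.getElem_mem ha, fun z hz => ⟨?_, ?_⟩⟩,
    hl'.inc⟩
  · have := hl'.len
    rw [List.length_take, List.length_drop] at this
    omega
  · have h3 := (hl'.mem z hz).1
    rw [h1, List.mem_append, List.mem_singleton] at h3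
    rcases h3 with h3 | h3
    · have h4 : l.Pairwise (· < ·) := hl
      rw [← List.take_append_drop a l, List.pairwise_append] at h4
      exact (h4.2.2 _ h3 _ (by rw [h2]; exact List.mem_cons_self)).le
    · exact h3.le
  · have h3 := (hl'.mem z hz).2
    rw [h2, List.mem_cons] at h3
    rcases h3 with h3 | h3
    · exact h3.ge
    · have h4 : (l.drop a).Pairwise (· < ·) := hl.sublist (List.drop_sublist _ _)
      rw [h2, List.pairwise_cons] at h4
      exact (h4.1 _ h3).le

end order

end Pool.Agent.H88.FU
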